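import Pool.Graph.R_pool_sql_team_seeded_3997aac3.H140.OM.Step

/-!
# For every n at least 25 some n-omino lies in no tiling of the plane by n-ominoes

The definitions are in the library files `Pool.Graph.R_pool_sql_team_seeded_3997aac3.H140.OM`:
`cell`, `region`, `IsDisk`, `IsOmino` (Cells), `Congruent` (Iso), `IsTiling` (Step).

The `n`-omino `P` surrounds a cavity which consists of a door cell and of two chambers of less than
`n` cells each that can only be entered through the door cell; the cavity has more than `n` cells.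
In a tiling all cells of the cavity are cells of aligned tiles, and the tile that contains the door
cell has to contain both chambers.  For `n = 25` the smaller chamber is a single cell beside the door
and the larger one is a `5 × 5` square without a cell; `26 ≤ n ≤ 33` is similar; for `n ≥ 34` the
chambers are two rectangles of three columns.
-/

namespace Pool.Agent.Results.MP_60dc17_co.FromTwentyFive

open Set Metric Filter Topology Pool.Agent.H140.OM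

/-- A tiling is equitransitive if any two congruent tiles are equivalent under an isometry of the
plane that maps the tiling onto itself. -/
def Equitransitive (𝒯 : Set (Set ℂ)) : Prop :=
  ∀ T ∈ 𝒯, ∀ T' ∈ 𝒯, Congruent T T' →
    ∃ g : ℂ ≃ᵢ ℂ, (fun S => g '' S) '' 𝒯 = 𝒯 ∧ g '' T = T'

/-! ## The four steps -/

lemma step₁ {n : ℕ} {𝒯 : Set (Set ℂ)} (h : IsTiling n 𝒯) {x y : ℤ}
    (k2 : Known n 𝒯 (x - 1, y)) (k4 : Known n 𝒯 (x, y - 1)) : Known n 𝒯 (x, y) := by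
  refine step h (u := 1) (Or.inl rfl) (p := (x, y)) ?_ ?_ ?_ k2 k4
  · intro X Y h1 h2 h3 h4
    refine ⟨⟨?_, ?_⟩, ?_, ?_⟩ <;> simp [pt] <;> linarith
  · intro X Y h1 h2 h3 h4
    refine ⟨⟨?_, ?_⟩, ?_, ?_⟩ <;> simp [pt] <;> linarith
  · intro X Y h1 h2 h3 h4
    refine ⟨⟨?_, ?_⟩, ?_, ?_⟩ <;> simp [pt] <;> linarith

lemma step₂ {n : ℕ} {𝒯 : Set (Set ℂ)} (h : IsTiling n 𝒯) {x y : ℤ}
    (k2 : Known n 𝒯 (x + 1, y)) (k4 : Known n 𝒯 (x, y - 1)) : Known n 𝒯 (x, y) := by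
  refine step h (u := Complex.I) (Or.inr (Or.inl rfl)) (p := (x + 1, y)) ?_ ?_ ?_ k4 k2
  · intro X Y h1 h2 h3 h4
    refine ⟨⟨?_, ?_⟩, ?_, ?_⟩ <;> simp [pt] <;> linarith
  · intro X Y h1 h2 h3 h4
    refine ⟨⟨?_, ?_⟩, ?_, ?_⟩ <;> simp [pt] <;> linarith
  · intro X Y h1 h2 h3 h4
    refine ⟨⟨?_, ?_⟩, ?_, ?_⟩ <;> simp [pt] <;> linarith

lemma step₃ {n : ℕ} {𝒯 : Set (Set ℂ)} (h : IsTiling n 𝒯) {x y : ℤ}
    (k2 : Known n 𝒯 (x + 1, y)) (k4 : Known n 𝒯 (x, y + 1)) : Known n 𝒯 (x, y) := by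
  refine step h (u := -1) (Or.inr (Or.inr (Or.inl rfl))) (p := (x + 1, y + 1)) ?_ ?_ ?_ k2 k4
  · intro X Y h1 h2 h3 h4
    refine ⟨⟨?_, ?_⟩, ?_, ?_⟩ <;> simp [pt] <;> linarith
  · intro X Y h1 h2 h3 h4
    refine ⟨⟨?_, ?_⟩, ?_, ?_⟩ <;> simp [pt] <;> linarith
  · intro X Y h1 h2 h3 h4
    refine ⟨⟨?_, ?_⟩, ?_, ?_⟩ <;> simp [pt] <;> linarith

lemma step₄ {n : ℕ} {𝒯 : Set (Set ℂ)} (h : IsTiling n 𝒯) {x y : ℤ}
    (k2 : Known n 𝒯 (x - 1, y)) (k4 : Known n 𝒯 (x, y + 1)) : Known n 𝒯 (x, y) := by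
  refine step h (u := -Complex.I) (Or.inr (Or.inr (Or.inr rfl))) (p := (x, y + 1)) ?_ ?_ ?_ k4 k2
  · intro X Y h1 h2 h3 h4
    refine ⟨⟨?_, ?_⟩, ?_, ?_⟩ <;> simp [pt] <;> linarith
  · intro X Y h1 h2 h3 h4
    refine ⟨⟨?_, ?_⟩, ?_, ?_⟩ <;> simp [pt] <;> linarith
  · intro X Y h1 h2 h3 h4
    refine ⟨⟨?_, ?_⟩, ?_, ?_⟩ <;> simp [pt] <;> linarith

/-- the cells obtained from the cells of `P` by steps: a horizontal neighbour and a vertical neighbour
have been obtained before -/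
inductive Der (P : Finset (ℤ × ℤ)) : ℤ × ℤ → Prop
  | base {c : ℤ × ℤ} : c ∈ P → Der P c
  | st {x y s t : ℤ} : (s = x - 1 ∨ s = x + 1) → (t = y - 1 ∨ t = y + 1) → Der P (s, y) →
      Der P (x, t) → Der P (x, y)

lemma known_of_der {n : ℕ} {𝒯 : Set (Set ℂ)} (h : IsTiling n 𝒯) {P : Finset (ℤ × ℤ)}
    (hP : ∀ c ∈ P, Known n 𝒯 c) {c : ℤ × ℤ} (hc : Der P c) : Known n 𝒯 c := by
  induction hc with
  | base h1 => exact hP _ h1
  | st h1 h2 _ _ i1 i2 =>
    rcases h1 with rfl | rfl <;> rcases h2 with rfl | rfl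
    · exact step₁ h i1 i2
    · exact step₄ h i1 i2
    · exact step₂ h i1 i2
    · exact step₃ h i1 i2

/-! ## Traps -/

/-- `P` is a polyomino with `n` cells around a cavity consisting of a door and two chambers -/
structure Trap (n : ℕ) (P : Finset (ℤ × ℤ)) : Prop where
  card : P.card = n
  disk : IsDisk (region P)
  cavity : ∃ (L₁ L₂ : Finset (ℤ × ℤ)) (d : ℤ × ℤ), L₁.card < n ∧ L₂.card < n ∧
    n ≤ (L₁ ∪ L₂).card ∧ d ∉ L₁ ∪ L₂ ∧ (∀ c ∈ L₁ ∪ L₂, c ∉ P) ∧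
    (∀ a ∈ L₁, ∀ b ∈ [(a.1 + 1, a.2), (a.1 - 1, a.2), (a.1, a.2 + 1), (a.1, a.2 - 1)],
      b ∈ L₁ ∨ b ∈ P ∨ b = d) ∧
    (∀ a ∈ L₂, ∀ b ∈ [(a.1 + 1, a.2), (a.1 - 1, a.2), (a.1, a.2 + 1), (a.1, a.2 - 1)],
      b ∈ L₂ ∨ b ∈ P ∨ b = d) ∧
    ∀ c ∈ insert d (L₁ ∪ L₂), Der P c

lemma adj_cases {a b : ℤ × ℤ} (h : adj a b) : b = (a.1 + 1, a.2) ∨ b = (a.1 - 1, a.2) ∨
    b = (a.1, a.2 + 1) ∨ b = (a.1, a.2 - 1) := by
  unfold adj at h
  have : (b.1 = a.1 + 1 ∧ b.2 = a.2) ∨ (b.1 = a.1 - 1 ∧ b.2 = a.2) ∨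
    (b.1 = a.1 ∧ b.2 = a.2 + 1) ∨ (b.1 = a.1 ∧ b.2 = a.2 - 1) := by omega
  rcases this with h | h | h | h
  · left; exact Prod.ext h.1 h.2
  · right; left; exact Prod.ext h.1 h.2
  · right; right; left; exact Prod.ext h.1 h.2
  · right; right; right; exact Prod.ext h.1 h.2

lemma same_tile {n : ℕ} {𝒯 : Set (Set ℂ)} (h : IsTiling n 𝒯) {D E : Finset (ℤ × ℤ)}
    (hD : region D ∈ 𝒯) (hE : region E ∈ 𝒯) {c : ℤ × ℤ} (h1 : c ∈ D) (h2 : c ∈ E) :
    region D = region E := by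
  by_contra hne
  have := h.disj _ hD _ hE hne
  exact (Set.disjoint_left.1 this) (ocell_interior h1 (ctr_mem c)) (ocell_interior h2 (ctr_mem c))

lemma mem_of_region {D E : Finset (ℤ × ℤ)} (h : region D = region E) {c : ℤ × ℤ} (hc : c ∈ D) :
    c ∈ E := by
  apply ocell_region (ctr_mem c)
  rw [← h]
  exact mem_region.2 ⟨c, hc, ocell_sub c (ctr_mem c)⟩

/-- a cell of a chamber belongs to the tile of the door cell -/
lemma chamber {n : ℕ} {𝒯 : Set (Set ℂ)} (h : IsTiling n 𝒯) {P : Finset (ℤ × ℤ)} {d : ℤ × ℤ}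
    (hP : region P ∈ 𝒯) {Z : Finset (ℤ × ℤ)}
    (hZ : region Z ∈ 𝒯) (hz : d ∈ Z) {L : Finset (ℤ × ℤ)} (hL : L.card < n)
    (hLP : ∀ c ∈ L, c ∉ P)
    (hnbr : ∀ a ∈ L, ∀ b ∈ [(a.1 + 1, a.2), (a.1 - 1, a.2), (a.1, a.2 + 1), (a.1, a.2 - 1)],
      b ∈ L ∨ b ∈ P ∨ b = d) {c : ℤ × ℤ} (hcL : c ∈ L) (hc : Known n 𝒯 c) : c ∈ Z := by
  classical
  obtain ⟨D, hD, hcard, hdisk, hcD⟩ := hc
  by_cases hzD : d ∈ D
  · exact mem_of_region (same_tile h hD hZ hzD hz) hcD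
  · exfalso
    have hDP : ∀ e ∈ D, e ∉ P := by
      intro e he heP
      have := same_tile h hD hP he heP
      exact hLP c hcL (mem_of_region this hcD)
    have hsub := disk_connected hdisk (A := D ∩ L) Finset.inter_subset_left
      ⟨c, Finset.mem_inter.2 ⟨hcD, hcL⟩⟩ (by
        intro a ha b hb hbA hadj
        rw [Finset.mem_inter] at ha
        have hb2 : b ∈ L ∨ b ∈ P ∨ b = d := by
          apply hnbr a ha.2
          rcases adj_cases hadj with e | e | e | e <;> simp [e]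
        rcases hb2 with h1 | h1 | h1
        · exact hbA (Finset.mem_inter.2 ⟨hb, h1⟩)
        · exact hDP b hb h1
        · exact hzD (h1 ▸ hb))
    have h1 : D.card ≤ L.card :=
      Finset.card_le_card (hsub.trans Finset.inter_subset_right)
    omega

/-- a trap is not a tile of a tiling by `n`-ominoes -/
theorem Trap.not_mem {n : ℕ} {P : Finset (ℤ × ℤ)} (t : Trap n P) {𝒯 : Set (Set ℂ)}
    (h : IsTiling n 𝒯) : region P ∉ 𝒯 := by
  classical
  intro hmem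
  obtain ⟨L₁, L₂, d, h1, h2, h12, hd, hLP, n1, n2, hK⟩ := t.cavity
  have hP : ∀ c : ℤ × ℤ, c ∈ P → Known n 𝒯 c := fun c hc => ⟨P, hmem, t.card, t.disk, hc⟩
  have hK' : ∀ c ∈ insert d (L₁ ∪ L₂), Known n 𝒯 c := fun c hc => known_of_der h hP (hK c hc)
  obtain ⟨Z, hZ, hZc, -, hz⟩ := hK' d (Finset.mem_insert_self _ _)
  have hall : insert d (L₁ ∪ L₂) ⊆ Z := by
    intro c hc
    have hc' := hK' c hc
    rw [Finset.mem_insert, Finset.mem_union] at hc
    rcases hc with rfl | hc | hc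
    · exact hz
    · exact chamber h hmem hZ hz h1 (fun e he => hLP e (Finset.mem_union_left _ he)) n1 hc hc'
    · exact chamber h hmem hZ hz h2 (fun e he => hLP e (Finset.mem_union_right _ he)) n2 hc hc'
  have h3 := Finset.card_le_card hall
  rw [Finset.card_insert_of_notMem hd] at h3
  omega

/-- moving a tiling -/
lemma IsTiling.move {n : ℕ} {𝒯 : Set (Set ℂ)} (h : IsTiling n 𝒯) (g : ℂ ≃ᵢ ℂ) :
    IsTiling n ((fun S => g '' S) '' 𝒯) where
  countable := h.countable.image _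
  tile := by
    rintro _ ⟨T, hT, rfl⟩
    obtain ⟨R, hR, f, rfl⟩ := h.tile T hT
    refine ⟨R, hR, f.trans g, ?_⟩
    simp only [image_image]
    rfl
  cover := by
    rw [eq_univ_iff_forall]
    intro z
    have : g.symm z ∈ ⋃₀ 𝒯 := by rw [h.cover]; trivial
    obtain ⟨T, hT, hz⟩ := this
    exact ⟨g '' T, ⟨T, hT, rfl⟩, ⟨g.symm z, hz, by simp⟩⟩
  disj := by
    rintro _ ⟨T, hT, rfl⟩ _ ⟨T', hT', rfl⟩ hne
    have hne' : T ≠ T' := fun e => hne (by rw [e])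
    have hd := h.disj T hT T' hT' hne'
    have e : ∀ S : Set ℂ, interior (g '' S) = g '' interior S := fun S =>
      (g.toHomeomorph.image_interior S).symm
    simp only [e]
    exact (disjoint_image_iff g.injective).2 hd

lemma Trap.main {n : ℕ} {P : Finset (ℤ × ℤ)} (t : Trap n P) {𝒯 : Set (Set ℂ)}
    (h : IsTiling n 𝒯) : ∀ T ∈ 𝒯, ¬ Congruent (region P) T := by
  rintro T hT ⟨g, rfl⟩
  apply t.not_mem (IsTiling.move h g.symm)
  refine ⟨g '' region P, hT, ?_⟩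
  simp only [image_image, IsometryEquiv.symm_apply_apply, image_id']

/-! ## The small cases -/

/-- each cell of the list has a horizontal and a vertical neighbour which is a cell of `P` or comes
later in the list -/
def derList (P : List (ℤ × ℤ)) : List (ℤ × ℤ) → Bool
  | [] => true
  | c :: l => derList P l &&
      (((P.contains (c.1 - 1, c.2) || l.contains (c.1 - 1, c.2)) ||
        (P.contains (c.1 + 1, c.2) || l.contains (c.1 + 1, c.2))) &&
       ((P.contains (c.1, c.2 - 1) || l.contains (c.1, c.2 - 1)) ||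
        (P.contains (c.1, c.2 + 1) || l.contains (c.1, c.2 + 1))))

lemma der_of_list {P : List (ℤ × ℤ)} : ∀ l : List (ℤ × ℤ), derList P l = true → ∀ c ∈ l,
    Der P.toFinset c
  | [], _, c, hc => by simp at hc
  | e :: l, h, c, hc => by
    rw [derList, Bool.and_eq_true, Bool.and_eq_true] at h
    obtain ⟨h0, h1, h2⟩ := h
    have ih := der_of_list l h0
    rcases List.mem_cons.1 hc with rfl | hc
    · obtain ⟨x, y⟩ := c
      have key : ∀ e : ℤ × ℤ, (P.contains e || l.contains e) = true → Der P.toFinset e := by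
        intro e he
        rw [Bool.or_eq_true] at he
        rcases he with he | he
        · exact Der.base (by simpa using he)
        · exact ih e (by simpa using he)
      have a1 : ∃ s, (s = x - 1 ∨ s = x + 1) ∧ Der P.toFinset (s, y) := by
        rw [Bool.or_eq_true] at h1
        rcases h1 with h1 | h1
        · exact ⟨_, Or.inl rfl, key _ h1⟩
        · exact ⟨_, Or.inr rfl, key _ h1⟩
      have a2 : ∃ s, (s = y - 1 ∨ s = y + 1) ∧ Der P.toFinset (x, s) := by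
        rw [Bool.or_eq_true] at h2
        rcases h2 with h2 | h2
        · exact ⟨_, Or.inl rfl, key _ h2⟩
        · exact ⟨_, Or.inr rfl, key _ h2⟩
      obtain ⟨s, hs, hs'⟩ := a1
      obtain ⟨t, ht, ht'⟩ := a2
      exact Der.st hs ht hs' ht'
    · exact ih c hc

/-- the conditions on a list describing a trap -/
def Check (n : ℕ) (l : List ((ℤ × ℤ) × (ℤ × ℤ))) (a b : List (ℤ × ℤ)) (d : ℤ × ℤ)
    (k : List (ℤ × ℤ)) : Prop :=
  buildable l ∧ (l.map Prod.fst).toFinset.card = n ∧ a.toFinset.card < n ∧ b.toFinset.card < n ∧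
  n ≤ (a.toFinset ∪ b.toFinset).card ∧ d ∉ a.toFinset ∪ b.toFinset ∧
  (∀ c ∈ a.toFinset ∪ b.toFinset, c ∉ (l.map Prod.fst).toFinset) ∧
  (∀ e ∈ a.toFinset, ∀ g ∈ [(e.1 + 1, e.2), (e.1 - 1, e.2), (e.1, e.2 + 1), (e.1, e.2 - 1)],
      g ∈ a.toFinset ∨ g ∈ (l.map Prod.fst).toFinset ∨ g = d) ∧
  (∀ e ∈ b.toFinset, ∀ g ∈ [(e.1 + 1, e.2), (e.1 - 1, e.2), (e.1, e.2 + 1), (e.1, e.2 - 1)],
      g ∈ b.toFinset ∨ g ∈ (l.map Prod.fst).toFinset ∨ g = d) ∧
  (∀ c ∈ insert d (a.toFinset ∪ b.toFinset), c ∈ k) ∧ derList (l.map Prod.fst) k = true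

instance (n : ℕ) (l : List ((ℤ × ℤ) × (ℤ × ℤ))) (a b : List (ℤ × ℤ)) (d : ℤ × ℤ)
    (k : List (ℤ × ℤ)) : Decidable (Check n l a b d k) := by
  unfold Check; infer_instance

lemma trap_of_check {n : ℕ} {l : List ((ℤ × ℤ) × (ℤ × ℤ))} {a b : List (ℤ × ℤ)} {d : ℤ × ℤ}
    {k : List (ℤ × ℤ)} (h : Check n l a b d k) : Trap n (l.map Prod.fst).toFinset := by
  obtain ⟨h1, h2, h3, h4, h5, h6, h7, h8, h9, h10, h11⟩ := h
  exact ⟨h2, isDisk_of_buildable l h1, a.toFinset, b.toFinset, d, h3, h4, h5, h6, h7, h8, h9,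
    fun c hc => der_of_list k h11 c (h10 c hc)⟩

/-- the cells of the `25`-omino, last first, each with the cell to which it is attached -/
def l25 : List ((ℤ × ℤ) × (ℤ × ℤ)) :=
  [((5, -1), (6, -1)), ((6, -1), (6, 0)), ((6, 0), (6, 1)), ((5, 1), (6, 1)), ((6, 1), (6, 2)), ((6, 2), (6, 3)), ((6, 3), (6, 4)), ((6, 4), (6, 5)), ((6, 5), (6, 6)), ((6, 6), (5, 6)), ((5, 6), (4, 6)), ((4, 6), (3, 6)), ((3, 6), (2, 6)), ((2, 6), (1, 6)), ((1, 6), (0, 6)), ((3, 0), (2, 0)), ((2, 0), (1, 0)), ((1, 0), (0, 0)), ((0, 6), (0, 5)), ((0, 5), (0, 4)), ((0, 4), (0, 3)), ((0, 3), (0, 2)), ((0, 2), (0, 1)), ((0, 1), (0, 0)), ((0, 0), (0, 0))]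

/-- the cells of the large chamber -/
def a25 : List (ℤ × ℤ) :=
  [(1, 1), (1, 2), (1, 3), (1, 4), (1, 5), (2, 1), (2, 2), (2, 3), (2, 4), (2, 5), (3, 1), (3, 2), (3, 3), (3, 4), (3, 5), (4, 1), (4, 2), (4, 3), (4, 4), (4, 5), (5, 2), (5, 3), (5, 4), (5, 5)]

/-- the cells of the cavity, in the reverse of the order in which they are shown to be known -/
def k25 : List (ℤ × ℤ) :=
  [(4, 0), (4, 1), (4, 2), (4, 3), (4, 4), (5, 0), (5, 5), (5, 4), (5, 3), (5, 2), (4, 5), (3, 5), (3, 4), (3, 3), (3, 2), (3, 1), (2, 5), (2, 4), (2, 3), (2, 2), (2, 1), (1, 5), (1, 4), (1, 3), (1, 2), (1, 1)]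

lemma t25 : Trap 25 (l25.map Prod.fst).toFinset :=
  trap_of_check (a := a25) (b := [(5, 0)]) (d := (4, 0)) (k := k25) (by decide +kernel)

/-- the cells of the `26`-omino, last first, each with the cell to which it is attached -/
def l26 : List ((ℤ × ℤ) × (ℤ × ℤ)) :=
  [((3, 0), (4, 0)), ((4, 0), (5, 0)), ((5, 0), (6, 0)), ((6, 0), (6, 1)), ((6, 1), (6, 2)), ((6, 2), (6, 3)), ((6, 3), (6, 4)), ((6, 4), (6, 5)), ((6, 5), (6, 6)), ((6, 6), (5, 6)), ((5, 6), (4, 6)), ((4, 6), (4, 7)), ((4, 7), (3, 7)), ((3, 7), (2, 7)), ((2, 7), (1, 7)), ((1, 7), (0, 7)), ((0, 7), (0, 6)), ((1, 2), (0, 2)), ((0, 6), (0, 5)), ((0, 5), (0, 4)), ((0, 4), (0, 3)), ((0, 3), (0, 2)), ((0, 2), (0, 1)), ((0, 1), (0, 0)), ((1, 0), (0, 0)), ((0, 0), (0, 0))]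

/-- the cells of the large chamber -/
def a26 : List (ℤ × ℤ) :=
  [(3, 1), (4, 1), (5, 1), (2, 2), (3, 2), (4, 2), (5, 2), (1, 3), (2, 3), (3, 3), (4, 3), (5, 3), (1, 4), (2, 4), (3, 4), (4, 4), (5, 4), (1, 5), (2, 5), (3, 5), (4, 5), (5, 5), (1, 6), (2, 6), (3, 6)]

/-- the cells of the cavity, in the reverse of the order in which they are shown to be known -/
def k26 : List (ℤ × ℤ) :=
  [(2, 1), (2, 2), (2, 3), (3, 4), (2, 4), (3, 3), (3, 2), (3, 1), (4, 5), (3, 5), (2, 5), (4, 4), (4, 3), (4, 2), (4, 1), (1, 1), (3, 6), (2, 6), (1, 6), (5, 5), (1, 5), (5, 4), (1, 4), (5, 3), (1, 3), (5, 2), (5, 1)]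

lemma t26 : Trap 26 (l26.map Prod.fst).toFinset :=
  trap_of_check (a := a26) (b := [(1, 1)]) (d := (2, 1)) (k := k26) (by decide +kernel)

/-- the cells of the `27`-omino, last first, each with the cell to which it is attached -/
def l27 : List ((ℤ × ℤ) × (ℤ × ℤ)) :=
  [((3, 0), (4, 0)), ((4, 0), (5, 0)), ((5, 0), (6, 0)), ((7, 0), (6, 0)), ((6, 0), (6, 1)), ((6, 1), (6, 2)), ((6, 2), (6, 3)), ((6, 3), (6, 4)), ((6, 4), (6, 5)), ((6, 5), (6, 6)), ((6, 6), (5, 6)), ((5, 6), (5, 7)), ((5, 7), (4, 7)), ((4, 7), (3, 7)), ((3, 7), (2, 7)), ((2, 7), (1, 7)), ((1, 7), (0, 7)), ((0, 7), (0, 6)), ((1, 2), (0, 2)), ((0, 6), (0, 5)), ((0, 5), (0, 4)), ((0, 4), (0, 3)), ((0, 3), (0, 2)), ((0, 2), (0, 1)), ((0, 1), (0, 0)), ((1, 0), (0, 0)), ((0, 0), (0, 0))]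

/-- the cells of the large chamber -/
def a27 : List (ℤ × ℤ) :=
  [(3, 1), (4, 1), (5, 1), (2, 2), (3, 2), (4, 2), (5, 2), (1, 3), (2, 3), (3, 3), (4, 3), (5, 3), (1, 4), (2, 4), (3, 4), (4, 4), (5, 4), (1, 5), (2, 5), (3, 5), (4, 5), (5, 5), (1, 6), (2, 6), (3, 6), (4, 6)]

/-- the cells of the cavity, in the reverse of the order in which they are shown to be known -/
def k27 : List (ℤ × ℤ) :=
  [(2, 1), (2, 2), (2, 3), (3, 4), (2, 4), (3, 3), (3, 2), (3, 1), (4, 5), (3, 5), (2, 5), (4, 4), (4, 3), (4, 2), (4, 1), (1, 1), (4, 6), (3, 6), (2, 6), (1, 6), (5, 5), (1, 5), (5, 4), (1, 4), (5, 3), (1, 3), (5, 2), (5, 1)]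

lemma t27 : Trap 27 (l27.map Prod.fst).toFinset :=
  trap_of_check (a := a27) (b := [(1, 1)]) (d := (2, 1)) (k := k27) (by decide +kernel)

/-- the cells of the `28`-omino, last first, each with the cell to which it is attached -/
def l28 : List ((ℤ × ℤ) × (ℤ × ℤ)) :=
  [((3, 0), (4, 0)), ((4, 0), (5, 0)), ((5, 0), (6, 0)), ((8, 0), (7, 0)), ((7, 0), (6, 0)), ((6, 0), (6, 1)), ((6, 1), (6, 2)), ((6, 2), (6, 3)), ((6, 3), (6, 4)), ((6, 4), (6, 5)), ((6, 5), (6, 6)), ((6, 6), (6, 7)), ((6, 7), (5, 7)), ((5, 7), (4, 7)), ((4, 7), (3, 7)), ((3, 7), (2, 7)), ((2, 7), (1, 7)), ((1, 7), (0, 7)), ((0, 7), (0, 6)), ((1, 2), (0, 2)), ((0, 6), (0, 5)), ((0, 5), (0, 4)), ((0, 4), (0, 3)), ((0, 3), (0, 2)), ((0, 2), (0, 1)), ((0, 1), (0, 0)), ((1, 0), (0, 0)), ((0, 0), (0, 0))]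

/-- the cells of the large chamber -/
def a28 : List (ℤ × ℤ) :=
  [(3, 1), (4, 1), (5, 1), (2, 2), (3, 2), (4, 2), (5, 2), (1, 3), (2, 3), (3, 3), (4, 3), (5, 3), (1, 4), (2, 4), (3, 4), (4, 4), (5, 4), (1, 5), (2, 5), (3, 5), (4, 5), (5, 5), (1, 6), (2, 6), (3, 6), (4, 6), (5, 6)]

/-- the cells of the cavity, in the reverse of the order in which they are shown to be known -/
def k28 : List (ℤ × ℤ) :=
  [(2, 1), (2, 2), (2, 3), (3, 4), (2, 4), (3, 3), (3, 2), (3, 1), (4, 5), (3, 5), (2, 5), (4, 4), (4, 3), (4, 2), (4, 1), (1, 1), (5, 6), (4, 6), (3, 6), (2, 6), (1, 6), (5, 5), (1, 5), (5, 4), (1, 4), (5, 3), (1, 3), (5, 2), (5, 1)]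

lemma t28 : Trap 28 (l28.map Prod.fst).toFinset :=
  trap_of_check (a := a28) (b := [(1, 1)]) (d := (2, 1)) (k := k28) (by decide +kernel)

/-- the cells of the `29`-omino, last first, each with the cell to which it is attached -/
def l29 : List ((ℤ × ℤ) × (ℤ × ℤ)) :=
  [((3, 0), (4, 0)), ((4, 0), (5, 0)), ((5, 0), (6, 0)), ((7, 0), (6, 0)), ((6, 0), (6, 1)), ((6, 1), (6, 2)), ((6, 2), (6, 3)), ((6, 3), (6, 4)), ((6, 4), (6, 5)), ((6, 5), (6, 6)), ((6, 6), (6, 7)), ((6, 7), (5, 7)), ((5, 7), (4, 7)), ((4, 7), (3, 7)), ((3, 7), (2, 7)), ((2, 7), (2, 8)), ((2, 8), (1, 8)), ((1, 8), (0, 8)), ((0, 8), (0, 7)), ((1, 2), (0, 2)), ((0, 7), (0, 6)), ((0, 6), (0, 5)), ((0, 5), (0, 4)), ((0, 4), (0, 3)), ((0, 3), (0, 2)), ((0, 2), (0, 1)), ((0, 1), (0, 0)), ((1, 0), (0, 0)), ((0, 0), (0, 0))]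

/-- the cells of the large chamber -/
def a29 : List (ℤ × ℤ) :=
  [(3, 1), (4, 1), (5, 1), (2, 2), (3, 2), (4, 2), (5, 2), (1, 3), (2, 3), (3, 3), (4, 3), (5, 3), (1, 4), (2, 4), (3, 4), (4, 4), (5, 4), (1, 5), (2, 5), (3, 5), (4, 5), (5, 5), (1, 6), (2, 6), (3, 6), (4, 6), (5, 6), (1, 7)]

/-- the cells of the cavity, in the reverse of the order in which they are shown to be known -/
def k29 : List (ℤ × ℤ) :=
  [(2, 1), (2, 2), (2, 3), (3, 4), (2, 4), (3, 3), (3, 2), (3, 1), (4, 5), (3, 5), (2, 5), (4, 4), (4, 3), (4, 2), (4, 1), (1, 1), (1, 7), (5, 6), (4, 6), (3, 6), (2, 6), (1, 6), (5, 5), (1, 5), (5, 4), (1, 4), (5, 3), (1, 3), (5, 2), (5, 1)]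

lemma t29 : Trap 29 (l29.map Prod.fst).toFinset :=
  trap_of_check (a := a29) (b := [(1, 1)]) (d := (2, 1)) (k := k29) (by decide +kernel)

/-- the cells of the `30`-omino, last first, each with the cell to which it is attached -/
def l30 : List ((ℤ × ℤ) × (ℤ × ℤ)) :=
  [((3, 0), (4, 0)), ((4, 0), (5, 0)), ((5, 0), (6, 0)), ((8, 0), (7, 0)), ((7, 0), (6, 0)), ((6, 0), (6, 1)), ((6, 1), (6, 2)), ((6, 2), (6, 3)), ((6, 3), (6, 4)), ((6, 4), (6, 5)), ((6, 5), (6, 6)), ((6, 6), (6, 7)), ((6, 7), (5, 7)), ((5, 7), (4, 7)), ((4, 7), (3, 7)), ((3, 7), (3, 8)), ((3, 8), (2, 8)), ((2, 8), (1, 8)), ((1, 8), (0, 8)), ((0, 8), (0, 7)), ((1, 2), (0, 2)), ((0, 7), (0, 6)), ((0, 6), (0, 5)), ((0, 5), (0, 4)), ((0, 4), (0, 3)), ((0, 3), (0, 2)), ((0, 2), (0, 1)), ((0, 1), (0, 0)), ((1, 0), (0, 0)), ((0, 0), (0, 0))]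

/-- the cells of the large chamber -/
def a30 : List (ℤ × ℤ) :=
  [(3, 1), (4, 1), (5, 1), (2, 2), (3, 2), (4, 2), (5, 2), (1, 3), (2, 3), (3, 3), (4, 3), (5, 3), (1, 4), (2, 4), (3, 4), (4, 4), (5, 4), (1, 5), (2, 5), (3, 5), (4, 5), (5, 5), (1, 6), (2, 6), (3, 6), (4, 6), (5, 6), (1, 7), (2, 7)]

/-- the cells of the cavity, in the reverse of the order in which they are shown to be known -/
def k30 : List (ℤ × ℤ) :=
  [(2, 1), (2, 2), (2, 3), (2, 4), (3, 5), (2, 5), (3, 4), (3, 3), (3, 2), (3, 1), (4, 6), (3, 6), (2, 6), (4, 5), (4, 4), (4, 3), (4, 2), (4, 1), (1, 1), (2, 7), (1, 7), (5, 6), (1, 6), (5, 5), (1, 5), (5, 4), (1, 4), (5, 3), (1, 3), (5, 2), (5, 1)]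

lemma t30 : Trap 30 (l30.map Prod.fst).toFinset :=
  trap_of_check (a := a30) (b := [(1, 1)]) (d := (2, 1)) (k := k30) (by decide +kernel)

/-- the cells of the `31`-omino, last first, each with the cell to which it is attached -/
def l31 : List ((ℤ × ℤ) × (ℤ × ℤ)) :=
  [((3, 0), (4, 0)), ((4, 0), (5, 0)), ((5, 0), (6, 0)), ((9, 0), (8, 0)), ((8, 0), (7, 0)), ((7, 0), (6, 0)), ((6, 0), (6, 1)), ((6, 1), (6, 2)), ((6, 2), (6, 3)), ((6, 3), (6, 4)), ((6, 4), (6, 5)), ((6, 5), (6, 6)), ((6, 6), (6, 7)), ((6, 7), (5, 7)), ((5, 7), (4, 7)), ((4, 7), (4, 8)), ((4, 8), (3, 8)), ((3, 8), (2, 8)), ((2, 8), (1, 8)), ((1, 8), (0, 8)), ((0, 8), (0, 7)), ((1, 2), (0, 2)), ((0, 7), (0, 6)), ((0, 6), (0, 5)), ((0, 5), (0, 4)), ((0, 4), (0, 3)), ((0, 3), (0, 2)), ((0, 2), (0, 1)), ((0, 1), (0, 0)), ((1, 0), (0, 0)), ((0, 0), (0, 0))]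

/-- the cells of the large chamber -/
def a31 : List (ℤ × ℤ) :=
  [(3, 1), (4, 1), (5, 1), (2, 2), (3, 2), (4, 2), (5, 2), (1, 3), (2, 3), (3, 3), (4, 3), (5, 3), (1, 4), (2, 4), (3, 4), (4, 4), (5, 4), (1, 5), (2, 5), (3, 5), (4, 5), (5, 5), (1, 6), (2, 6), (3, 6), (4, 6), (5, 6), (1, 7), (2, 7), (3, 7)]

/-- the cells of the cavity, in the reverse of the order in which they are shown to be known -/
def k31 : List (ℤ × ℤ) :=
  [(2, 1), (2, 2), (2, 3), (2, 4), (3, 5), (2, 5), (3, 4), (3, 3), (3, 2), (3, 1), (4, 6), (3, 6), (2, 6), (4, 5), (4, 4), (4, 3), (4, 2), (4, 1), (1, 1), (3, 7), (2, 7), (1, 7), (5, 6), (1, 6), (5, 5), (1, 5), (5, 4), (1, 4), (5, 3), (1, 3), (5, 2), (5, 1)]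

lemma t31 : Trap 31 (l31.map Prod.fst).toFinset :=
  trap_of_check (a := a31) (b := [(1, 1)]) (d := (2, 1)) (k := k31) (by decide +kernel)

/-- the cells of the `32`-omino, last first, each with the cell to which it is attached -/
def l32 : List ((ℤ × ℤ) × (ℤ × ℤ)) :=
  [((3, 0), (4, 0)), ((4, 0), (5, 0)), ((5, 0), (6, 0)), ((10, 0), (9, 0)), ((9, 0), (8, 0)), ((8, 0), (7, 0)), ((7, 0), (6, 0)), ((6, 0), (6, 1)), ((6, 1), (6, 2)), ((6, 2), (6, 3)), ((6, 3), (6, 4)), ((6, 4), (6, 5)), ((6, 5), (6, 6)), ((6, 6), (6, 7)), ((6, 7), (5, 7)), ((5, 7), (5, 8)), ((5, 8), (4, 8)), ((4, 8), (3, 8)), ((3, 8), (2, 8)), ((2, 8), (1, 8)), ((1, 8), (0, 8)), ((0, 8), (0, 7)), ((1, 2), (0, 2)), ((0, 7), (0, 6)), ((0, 6), (0, 5)), ((0, 5), (0, 4)), ((0, 4), (0, 3)), ((0, 3), (0, 2)), ((0, 2), (0, 1)), ((0, 1), (0, 0)), ((1, 0), (0, 0)), ((0, 0), (0, 0))]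

/-- the cells of the large chamber -/
def a32 : List (ℤ × ℤ) :=
  [(3, 1), (4, 1), (5, 1), (2, 2), (3, 2), (4, 2), (5, 2), (1, 3), (2, 3), (3, 3), (4, 3), (5, 3), (1, 4), (2, 4), (3, 4), (4, 4), (5, 4), (1, 5), (2, 5), (3, 5), (4, 5), (5, 5), (1, 6), (2, 6), (3, 6), (4, 6), (5, 6), (1, 7), (2, 7), (3, 7), (4, 7)]

/-- the cells of the cavity, in the reverse of the order in which they are shown to be known -/
def k32 : List (ℤ × ℤ) :=
  [(2, 1), (2, 2), (2, 3), (2, 4), (3, 5), (2, 5), (3, 4), (3, 3), (3, 2), (3, 1), (4, 6), (3, 6), (2, 6), (4, 5), (4, 4), (4, 3), (4, 2), (4, 1), (1, 1), (4, 7), (3, 7), (2, 7), (1, 7), (5, 6), (1, 6), (5, 5), (1, 5), (5, 4), (1, 4), (5, 3), (1, 3), (5, 2), (5, 1)]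

lemma t32 : Trap 32 (l32.map Prod.fst).toFinset :=
  trap_of_check (a := a32) (b := [(1, 1)]) (d := (2, 1)) (k := k32) (by decide +kernel)

/-- the cells of the `33`-omino, last first, each with the cell to which it is attached -/
def l33 : List ((ℤ × ℤ) × (ℤ × ℤ)) :=
  [((3, 0), (4, 0)), ((4, 0), (5, 0)), ((5, 0), (6, 0)), ((11, 0), (10, 0)), ((10, 0), (9, 0)), ((9, 0), (8, 0)), ((8, 0), (7, 0)), ((7, 0), (6, 0)), ((6, 0), (6, 1)), ((6, 1), (6, 2)), ((6, 2), (6, 3)), ((6, 3), (6, 4)), ((6, 4), (6, 5)), ((6, 5), (6, 6)), ((6, 6), (6, 7)), ((6, 7), (6, 8)), ((6, 8), (5, 8)), ((5, 8), (4, 8)), ((4, 8), (3, 8)), ((3, 8), (2, 8)), ((2, 8), (1, 8)), ((1, 8), (0, 8)), ((0, 8), (0, 7)), ((1, 2), (0, 2)), ((0, 7), (0, 6)), ((0, 6), (0, 5)), ((0, 5), (0, 4)), ((0, 4), (0, 3)), ((0, 3), (0, 2)), ((0, 2), (0, 1)), ((0, 1), (0, 0)), ((1, 0), (0, 0)), ((0, 0), (0, 0))]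

/-- the cells of the large chamber -/
def a33 : List (ℤ × ℤ) :=
  [(3, 1), (4, 1), (5, 1), (2, 2), (3, 2), (4, 2), (5, 2), (1, 3), (2, 3), (3, 3), (4, 3), (5, 3), (1, 4), (2, 4), (3, 4), (4, 4), (5, 4), (1, 5), (2, 5), (3, 5), (4, 5), (5, 5), (1, 6), (2, 6), (3, 6), (4, 6), (5, 6), (1, 7), (2, 7), (3, 7), (4, 7), (5, 7)]

/-- the cells of the cavity, in the reverse of the order in which they are shown to be known -/
def k33 : List (ℤ × ℤ) :=
  [(2, 1), (2, 2), (2, 3), (2, 4), (3, 5), (2, 5), (3, 4), (3, 3), (3, 2), (3, 1), (4, 6), (3, 6), (2, 6), (4, 5), (4, 4), (4, 3), (4, 2), (4, 1), (1, 1), (5, 7), (4, 7), (3, 7), (2, 7), (1, 7), (5, 6), (1, 6), (5, 5), (1, 5), (5, 4), (1, 4), (5, 3), (1, 3), (5, 2), (5, 1)]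

lemma t33 : Trap 33 (l33.map Prod.fst).toFinset :=
  trap_of_check (a := a33) (b := [(1, 1)]) (d := (2, 1)) (k := k33) (by decide +kernel)

/-! ## The family for `n ≥ 34` -/

lemma isDisk_insert {C : Finset (ℤ × ℤ)} {q q' : ℤ × ℤ} (hq : q ∉ C) (hq' : q' ∈ C)
    (hadj : adj q q') (hr : ∀ r ∈ C, r ≠ q' → far r q ∨ (diag r q ∧ adj r q'))
    (hC : IsDisk (region C)) : IsDisk (region (insert q C)) := by
  have := isDisk_add (C := C.toList) (q := q) (q' := q')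
    ⟨by simpa using hq, by simpa using hq', hadj, by simpa using hr⟩ (by simpa using hC)
  simpa using this

/-- a polyomino with `n` cells -/
def Om (n : ℕ) (C : Finset (ℤ × ℤ)) : Prop := C.card = n ∧ IsDisk (region C)

/-- `m` cells in direction `v`, beginning beside the cell `q` -/
noncomputable def seg (q v : ℤ × ℤ) (m : ℕ) : Finset (ℤ × ℤ) :=
  (Finset.Icc (1 : ℤ) m).image (fun j => (q.1 + j * v.1, q.2 + j * v.2))

lemma mem_seg {q v : ℤ × ℤ} {m : ℕ} {r : ℤ × ℤ} : r ∈ seg q v m ↔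
    ∃ j : ℤ, (1 ≤ j ∧ j ≤ m) ∧ (q.1 + j * v.1 = r.1 ∧ q.2 + j * v.2 = r.2) := by
  simp [seg, Prod.ext_iff]

lemma mem_segR {a b : ℤ} {m : ℕ} {r : ℤ × ℤ} : r ∈ seg (a, b) (1, 0) m ↔
    a + 1 ≤ r.1 ∧ r.1 ≤ a + m ∧ r.2 = b := by
  rw [mem_seg]
  constructor
  · rintro ⟨j, ⟨h1, h2⟩, h3, h4⟩
    simp only at h3 h4
    omega
  · rintro ⟨h1, h2, h3⟩
    refine ⟨r.1 - a, ⟨by omega, by omega⟩, by simp only; omega, by simp only; omega⟩

lemma mem_segL {a b : ℤ} {m : ℕ} {r : ℤ × ℤ} : r ∈ seg (a, b) (-1, 0) m ↔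
    a - m ≤ r.1 ∧ r.1 ≤ a - 1 ∧ r.2 = b := by
  rw [mem_seg]
  constructor
  · rintro ⟨j, ⟨h1, h2⟩, h3, h4⟩
    simp only at h3 h4
    omega
  · rintro ⟨h1, h2, h3⟩
    refine ⟨a - r.1, ⟨by omega, by omega⟩, by simp only; omega, by simp only; omega⟩

lemma mem_segU {a b : ℤ} {m : ℕ} {r : ℤ × ℤ} : r ∈ seg (a, b) (0, 1) m ↔
    b + 1 ≤ r.2 ∧ r.2 ≤ b + m ∧ r.1 = a := by
  rw [mem_seg]
  constructor
  · rintro ⟨j, ⟨h1, h2⟩, h3, h4⟩
    simp only at h3 h4
    omega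
  · rintro ⟨h1, h2, h3⟩
    refine ⟨r.2 - b, ⟨by omega, by omega⟩, by simp only; omega, by simp only; omega⟩

lemma mem_segD {a b : ℤ} {m : ℕ} {r : ℤ × ℤ} : r ∈ seg (a, b) (0, -1) m ↔
    b - m ≤ r.2 ∧ r.2 ≤ b - 1 ∧ r.1 = a := by
  rw [mem_seg]
  constructor
  · rintro ⟨j, ⟨h1, h2⟩, h3, h4⟩
    simp only at h3 h4
    omega
  · rintro ⟨h1, h2, h3⟩
    refine ⟨b - r.2, ⟨by omega, by omega⟩, by simp only; omega, by simp only; omega⟩

/-- adding a straight segment -/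
lemma Om.add {n : ℕ} {C : Finset (ℤ × ℤ)} (hC : Om n C) {q v : ℤ × ℤ}
    (hv : v = (1, 0) ∨ v = (-1, 0) ∨ v = (0, 1) ∨ v = (0, -1)) (hq : q ∈ C) (m : ℕ)
    (hr : ∀ r ∈ C, r ≠ q → ∀ j : ℤ, 1 ≤ j → j ≤ m → far r (q.1 + j * v.1, q.2 + j * v.2) ∨
      (j = 1 ∧ diag r (q.1 + v.1, q.2 + v.2) ∧ adj r q)) : Om (n + m) (C ∪ seg q v m) := by
  classical
  induction m with
  | zero =>
    have : seg q v 0 = ∅ := by simp [seg]
    rw [this, Finset.union_empty]; exact hC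
  | succ m ih =>
    have ih' := ih (fun r h1 h2 j h3 h4 => hr r h1 h2 j h3 (by push_cast; omega))
    obtain ⟨x, y⟩ := q
    have e : C ∪ seg (x, y) v (m + 1) =
        insert (x + ((m : ℤ) + 1) * v.1, y + ((m : ℤ) + 1) * v.2) (C ∪ seg (x, y) v m) := by
      ext r
      simp only [Finset.mem_union, Finset.mem_insert, mem_seg]
      constructor
      · rintro (h | ⟨j, ⟨h1, h2⟩, h3, h4⟩)
        · exact Or.inr (Or.inl h)
        · push_cast at h2
          rcases lt_or_eq_of_le h2 with h5 | h5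
          · exact Or.inr (Or.inr ⟨j, ⟨h1, by omega⟩, h3, h4⟩)
          · left
            subst h5
            exact Prod.ext h3.symm h4.symm
      · rintro (h | h | ⟨j, ⟨h1, h2⟩, h3, h4⟩)
        · right
          exact ⟨(m : ℤ) + 1, ⟨by omega, by push_cast; omega⟩, by rw [h], by rw [h]⟩
        · exact Or.inl h
        · exact Or.inr ⟨j, ⟨h1, by push_cast; omega⟩, h3, h4⟩
    have hz : (x + ((m : ℤ) + 1) * v.1, y + ((m : ℤ) + 1) * v.2) ∉ C ∪ seg (x, y) v m := by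
      rw [Finset.mem_union, mem_seg]
      rintro (h | ⟨j, ⟨h1, h2⟩, h3, h4⟩)
      · have hne : (x + ((m : ℤ) + 1) * v.1, y + ((m : ℤ) + 1) * v.2) ≠ (x, y) := by
          rw [Ne, Prod.mk.injEq]
          rcases hv with rfl | rfl | rfl | rfl <;> simp only <;> omega
        have := hr _ h hne ((m : ℤ) + 1) (by omega) (by push_cast; omega)
        unfold far diag adj at this
        simp only at this
        rcases this with h5 | ⟨h5, h6, h7⟩
        · omega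
        · have h8 : (m : ℤ) = 0 := by omega
          rw [h8] at h6
          rcases hv with rfl | rfl | rfl | rfl <;> simp at h6
      · rcases hv with rfl | rfl | rfl | rfl <;> simp only at h3 h4 <;> omega
    rw [e]
    refine ⟨by rw [Finset.card_insert_of_notMem hz, ih'.1]; rfl, ?_⟩
    refine isDisk_insert hz (q' := (x + (m : ℤ) * v.1, y + (m : ℤ) * v.2)) ?_ ?_ ?_ ih'.2
    · rw [Finset.mem_union, mem_seg]
      rcases Nat.eq_zero_or_pos m with rfl | hm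
      · left; simpa using hq
      · right; exact ⟨m, ⟨by omega, le_rfl⟩, rfl, rfl⟩
    · unfold adj
      rcases hv with rfl | rfl | rfl | rfl <;> simp only <;> omega
    · rintro ⟨r, s⟩ hrs hne
      rw [Finset.mem_union, mem_seg] at hrs
      rcases hrs with h | ⟨j, ⟨h1, h2⟩, h3, h4⟩
      · by_cases hq0 : (r, s) = (x, y)
        · left
          rw [Prod.mk.injEq] at hq0
          obtain ⟨rfl, rfl⟩ := hq0
          have hm : m ≠ 0 := by rintro rfl; simp at hne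
          unfold far
          rcases hv with rfl | rfl | rfl | rfl <;> simp only <;> omega
        · rcases hr _ h hq0 ((m : ℤ) + 1) (by omega) (by push_cast; omega) with h5 | ⟨h5, h6, h7⟩
          · exact Or.inl h5
          · right
            have h8 : (m : ℤ) = 0 := by omega
            rw [h8]
            simpa using And.intro h6 h7
      · left
        rw [Ne, Prod.mk.injEq] at hne
        unfold far
        rcases hv with rfl | rfl | rfl | rfl <;> simp only at h3 h4 hne ⊢ <;> omega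

/-- the cells of the polyomino for `n = 3 T + 16 + k` -/
noncomputable def big (T k : ℕ) : Finset (ℤ × ℤ) :=
  {(3, 0)} ∪ seg (3, 0) (-1, 0) 3 ∪ seg (0, 0) (0, 1) (T + 1) ∪ seg (0, T + 1) (1, 0) 8 ∪
    seg (8, T + 1) (0, -1) (T + 1) ∪ seg (8, 0) (-1, 0) 3 ∪ seg (4, T + 1) (0, -1) (T - 1) ∪
    seg (8, 0) (1, 0) k

lemma mem_big {T k : ℕ} (hT : 1 ≤ T) {r : ℤ × ℤ} : r ∈ big T k ↔
    (r.2 = 0 ∧ 0 ≤ r.1 ∧ r.1 ≤ 8 + k ∧ r.1 ≠ 4) ∨ (r.1 = 0 ∧ 1 ≤ r.2 ∧ r.2 ≤ T) ∨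
    (r.2 = T + 1 ∧ 0 ≤ r.1 ∧ r.1 ≤ 8) ∨ (r.1 = 8 ∧ 1 ≤ r.2 ∧ r.2 ≤ T) ∨
    (r.1 = 4 ∧ 2 ≤ r.2 ∧ r.2 ≤ T) := by
  unfold big
  simp only [Finset.mem_union, mem_segR, mem_segL, mem_segU, mem_segD, Finset.mem_singleton,
    Prod.ext_iff]
  push_cast [Nat.cast_sub hT]
  omega

lemma om_big {T k : ℕ} (hT : 2 ≤ T) : Om (3 * T + 16 + k) (big T k) := by
  have h0 : Om 1 {((3 : ℤ), (0 : ℤ))} := by
    refine ⟨by simp, ?_⟩
    have : region {((3 : ℤ), (0 : ℤ))} = cell (3, 0) := by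
      ext z; simp [mem_region]
    rw [this]; exact isDisk_cell _
  have h1 := h0.add (q := (3, 0)) (v := (-1, 0)) (by simp) (by simp) 3 (by
    rintro ⟨r, s⟩ h1 h2
    simp only [Finset.mem_singleton] at h1
    exact absurd h1 h2)
  have h2 := h1.add (q := (0, 0)) (v := (0, 1)) (by simp) (by
      simp only [Finset.mem_union, mem_segR, mem_segL, mem_segU, mem_segD, Finset.mem_singleton,
        Prod.ext_iff, and_true, true_and]
      push_cast
      first | omega | simp | (simp; omega)) (T + 1) (by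
    rintro ⟨r, s⟩ h1 h2 j h3 h4
    simp only [Finset.mem_union, mem_segR, mem_segL, mem_segU, mem_segD, Finset.mem_singleton,
        Prod.ext_iff, Ne] at h1 h2
    unfold far diag adj
    simp only
    push_cast at h1 h2 h4
    omega)
  have h3 := h2.add (q := (0, T + 1)) (v := (1, 0)) (by simp) (by
      simp only [Finset.mem_union, mem_segR, mem_segL, mem_segU, mem_segD, Finset.mem_singleton,
        Prod.ext_iff, and_true, true_and]
      push_cast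
      first | omega | simp | (simp; omega)) 8 (by
    rintro ⟨r, s⟩ h1 h2 j h3 h4
    simp only [Finset.mem_union, mem_segR, mem_segL, mem_segU, mem_segD, Finset.mem_singleton,
        Prod.ext_iff, Ne] at h1 h2
    unfold far diag adj
    simp only
    push_cast at h1 h2 h4
    omega)
  have h4 := h3.add (q := (8, T + 1)) (v := (0, -1)) (by simp) (by
      simp only [Finset.mem_union, mem_segR, mem_segL, mem_segU, mem_segD, Finset.mem_singleton,
        Prod.ext_iff, and_true, true_and]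
      push_cast
      first | omega | simp | (simp; omega)) (T + 1) (by
    rintro ⟨r, s⟩ h1 h2 j h3 h4
    simp only [Finset.mem_union, mem_segR, mem_segL, mem_segU, mem_segD, Finset.mem_singleton,
        Prod.ext_iff, Ne] at h1 h2
    unfold far diag adj
    simp only
    push_cast at h1 h2 h4
    omega)
  have h5 := h4.add (q := (8, 0)) (v := (-1, 0)) (by simp) (by
      simp only [Finset.mem_union, mem_segR, mem_segL, mem_segU, mem_segD, Finset.mem_singleton,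
        Prod.ext_iff, and_true, true_and]
      push_cast
      first | omega | simp | (simp; omega)) 3 (by
    rintro ⟨r, s⟩ h1 h2 j h3 h4
    simp only [Finset.mem_union, mem_segR, mem_segL, mem_segU, mem_segD, Finset.mem_singleton,
        Prod.ext_iff, Ne] at h1 h2
    unfold far diag adj
    simp only
    push_cast at h1 h2 h4
    omega)
  have h6 := h5.add (q := (4, T + 1)) (v := (0, -1)) (by simp) (by
      simp only [Finset.mem_union, mem_segR, mem_segL, mem_segU, mem_segD, Finset.mem_singleton,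
        Prod.ext_iff, and_true, true_and]
      push_cast
      first | omega | simp | (simp; omega)) (T - 1) (by
    rintro ⟨r, s⟩ h1 h2 j h3 h4
    simp only [Finset.mem_union, mem_segR, mem_segL, mem_segU, mem_segD, Finset.mem_singleton,
        Prod.ext_iff, Ne] at h1 h2
    unfold far diag adj
    simp only
    push_cast [Nat.cast_sub (show 1 ≤ T by omega)] at h1 h2 h4
    omega)
  have h7 := h6.add (q := (8, 0)) (v := (1, 0)) (by simp) (by
      simp only [Finset.mem_union, mem_segR, mem_segL, mem_segU, mem_segD, Finset.mem_singleton,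
        Prod.ext_iff, and_true, true_and]
      push_cast
      first | omega | simp | (simp; omega)) k (by
    rintro ⟨r, s⟩ h1 h2 j h3 h4
    simp only [Finset.mem_union, mem_segR, mem_segL, mem_segU, mem_segD, Finset.mem_singleton,
        Prod.ext_iff, Ne] at h1 h2
    unfold far diag adj
    simp only
    push_cast [Nat.cast_sub (show 1 ≤ T by omega)] at h1 h2 h4
    omega)
  have e : 1 + 3 + (T + 1) + 8 + (T + 1) + 3 + (T - 1) + k = 3 * T + 16 + k := by omega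
  rw [e] at h7
  exact h7

lemma rect_der {P : Finset (ℤ × ℤ)} {a b c e : ℤ} (hl : ∀ y, c ≤ y → y ≤ e → Der P (a - 1, y))
    (hb : ∀ x, a ≤ x → x ≤ b → Der P (x, c - 1)) (m : ℕ) : ∀ x y : ℤ, a ≤ x → x ≤ b → c ≤ y →
    y ≤ e → x + y = a + c + m → Der P (x, y) := by
  induction m with
  | zero =>
    intro x y h1 h2 h3 h4 h5
    have hx : x = a := by push_cast at h5; omega
    have hy : y = c := by push_cast at h5; omega
    subst hx hy
    exact Der.st (Or.inl rfl) (Or.inl rfl) (hl _ h3 h4) (hb _ h1 h2)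
  | succ m ih =>
    intro x y h1 h2 h3 h4 h5
    push_cast at h5
    refine Der.st (Or.inl rfl) (Or.inl rfl) ?_ ?_
    · rcases eq_or_lt_of_le h1 with h6 | h6
      · rw [← h6]; exact hl _ h3 h4
      · exact ih _ _ (by omega) (by omega) h3 h4 (by omega)
    · rcases eq_or_lt_of_le h3 with h6 | h6
      · rw [← h6]; exact hb _ h1 h2
      · exact ih _ _ h1 h2 (by omega) (by omega) (by omega)

lemma rect_der' {P : Finset (ℤ × ℤ)} {a b c e : ℤ} (hl : ∀ y, c ≤ y → y ≤ e → Der P (a - 1, y))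
    (hb : ∀ x, a ≤ x → x ≤ b → Der P (x, c - 1)) {x y : ℤ} (h1 : a ≤ x) (h2 : x ≤ b) (h3 : c ≤ y)
    (h4 : y ≤ e) : Der P (x, y) :=
  rect_der hl hb (x + y - a - c).toNat x y h1 h2 h3 h4 (by omega)

lemma trap_big {T k : ℕ} (hT : 6 ≤ T) (hk : k ≤ 2) : Trap (3 * T + 16 + k) (big T k) := by
  classical
  have hT1 : 1 ≤ T := by omega
  have ho := om_big (T := T) (k := k) (by omega)
  have c1 : ((Finset.Icc (1 : ℤ) 3) ×ˢ (Finset.Icc (1 : ℤ) T)).card = 3 * T := by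
    simp
  have c2 : ((Finset.Icc (5 : ℤ) 7) ×ˢ (Finset.Icc (1 : ℤ) T)).card = 3 * T := by
    simp
  have hdis : Disjoint ((Finset.Icc (1 : ℤ) 3) ×ˢ (Finset.Icc (1 : ℤ) T))
      ((Finset.Icc (5 : ℤ) 7) ×ˢ (Finset.Icc (1 : ℤ) T)) := by
    rw [Finset.disjoint_left]
    rintro ⟨x, y⟩ h1 h2
    simp only [Finset.mem_product, Finset.mem_Icc] at h1 h2
    omega
  have d1 : ∀ x y : ℤ, 1 ≤ x → x ≤ 3 → 1 ≤ y → y ≤ T → Der (big T k) (x, y) := by
    intro x y h1 h2 h3 h4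
    refine rect_der' (a := 1) (b := 3) (c := 1) (e := T) ?_ ?_ h1 h2 h3 h4
    · intro y h5 h6
      exact Der.base ((mem_big hT1).2 (by simp only; omega))
    · intro x h5 h6
      exact Der.base ((mem_big hT1).2 (by simp only; omega))
  have d0 : Der (big T k) (4, 1) := by
    refine Der.st (s := 3) (t := 2) (Or.inl (by norm_num)) (Or.inr (by norm_num))
      (d1 _ _ (by norm_num) (by norm_num) (by norm_num) (by omega)) ?_
    exact Der.base ((mem_big hT1).2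
      (Or.inr (Or.inr (Or.inr (Or.inr ⟨rfl, le_rfl, by show (2 : ℤ) ≤ T; omega⟩)))))
  have d2 : ∀ x y : ℤ, 5 ≤ x → x ≤ 7 → 1 ≤ y → y ≤ T → Der (big T k) (x, y) := by
    intro x y h1 h2 h3 h4
    refine rect_der' (a := 5) (b := 7) (c := 1) (e := T) ?_ ?_ h1 h2 h3 h4
    · intro y h5 h6
      rcases eq_or_lt_of_le h5 with h7 | h7
      · rw [← h7]; exact d0
      · exact Der.base ((mem_big hT1).2 (by simp only; omega))
    · intro x h5 h6
      exact Der.base ((mem_big hT1).2 (by simp only; omega))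
  refine ⟨ho.1, ho.2, (Finset.Icc (1 : ℤ) 3) ×ˢ (Finset.Icc (1 : ℤ) T),
    (Finset.Icc (5 : ℤ) 7) ×ˢ (Finset.Icc (1 : ℤ) T), (4, 1), by omega, by omega, ?_, ?_, ?_, ?_,
    ?_, ?_⟩
  · rw [Finset.card_union_of_disjoint hdis]; omega
  · simp only [Finset.mem_union, Finset.mem_product, Finset.mem_Icc]; omega
  · rintro ⟨x, y⟩ h1
    rw [mem_big hT1]
    simp only [Finset.mem_union, Finset.mem_product, Finset.mem_Icc] at h1 ⊢
    omega
  · rintro ⟨x, y⟩ h1 b hb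
    rw [mem_big hT1]
    simp only [Finset.mem_union, Finset.mem_product, Finset.mem_Icc, List.mem_cons,
      List.not_mem_nil, or_false] at h1 hb ⊢
    rcases hb with rfl | rfl | rfl | rfl <;> simp only [Prod.ext_iff] <;> omega
  · rintro ⟨x, y⟩ h1 b hb
    rw [mem_big hT1]
    simp only [Finset.mem_union, Finset.mem_product, Finset.mem_Icc, List.mem_cons,
      List.not_mem_nil, or_false] at h1 hb ⊢
    rcases hb with rfl | rfl | rfl | rfl <;> simp only [Prod.ext_iff] <;> omega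
  · rintro ⟨x, y⟩ h1
    simp only [Finset.mem_insert, Finset.mem_union, Finset.mem_product, Finset.mem_Icc,
      Prod.mk.injEq] at h1
    rcases h1 with ⟨rfl, rfl⟩ | h1 | h1
    · exact d0
    · exact d1 _ _ (by omega) (by omega) (by omega) (by omega)
    · exact d2 _ _ (by omega) (by omega) (by omega) (by omega)

lemma exists_trap {n : ℕ} (hn : 25 ≤ n) : ∃ P, Trap n P := by
  rcases lt_or_ge n 34 with h | h
  · interval_cases n
    · exact ⟨_, t25⟩
    · exact ⟨_, t26⟩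
    · exact ⟨_, t27⟩
    · exact ⟨_, t28⟩
    · exact ⟨_, t29⟩
    · exact ⟨_, t30⟩
    · exact ⟨_, t31⟩
    · exact ⟨_, t32⟩
    · exact ⟨_, t33⟩
  · obtain ⟨T, k, hk, hT⟩ : ∃ T k : ℕ, k ≤ 2 ∧ n = 3 * T + 16 + k :=
      ⟨(n - 16) / 3, (n - 16) % 3, by omega, by omega⟩
    rw [hT]
    exact ⟨_, trap_big (by omega) hk⟩

/-- **Theorem.** For every `n ≥ 25` there is an `n`-omino which lies in no tiling of the plane by
`n`-ominoes.  In particular, for no `n ≥ 25` is there a tiling of the plane by `n`-ominoes,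
equitransitive or not, in which every shape of `n`-omino occurs. -/
theorem result : ∀ n : ℕ, 25 ≤ n →
    (∃ R : Set ℂ, IsOmino n R ∧ ∀ 𝒯 : Set (Set ℂ), IsTiling n 𝒯 → ∀ T ∈ 𝒯, ¬ Congruent R T) ∧
    ¬ (∃ 𝒯 : Set (Set ℂ), IsTiling n 𝒯 ∧ Equitransitive 𝒯 ∧
      ∀ R : Set ℂ, IsOmino n R → ∃ T ∈ 𝒯, Congruent R T) := by
  intro n hn
  obtain ⟨P, t⟩ := exists_trap hn
  have hom : IsOmino n (region P) := ⟨t.disk, P, t.card, rfl⟩
  refine ⟨⟨region P, hom, fun 𝒯 h => t.main h⟩, ?_⟩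
  rintro ⟨𝒯, h, -, hocc⟩
  obtain ⟨T, hT, hc⟩ := hocc (region P) hom
  exact t.main h T hT hc

end Pool.Agent.Results.MP_60dc17_co.FromTwentyFive
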